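import Pool.Agent.W307.RT.Stm
import Pool.Agent.W21.RK.SVproof

/-!
# TRK-SVR2: upper bound sieve in a residue class, uniform in the forms
-/

set_option autoImplicit false

namespace Pool.Agent.W340.RT.SVR2

open Finset Pool.Agent.W262.RK
open Pool.Agent.W21.RK (nu_eq prod_le)

/-- the sieving condition -/
def QM {J : Type} (α β : J → ℤ) (z y : ℕ) (r : ℤ) (m M : ℕ) (p n : ℕ) : Prop :=
  p ∈ PS z y ∧ ¬ p ∣ M ∧ ∃ j, (p : ℤ) ∣ α j * (r + m * ((n : ℤ) - 1)) + β j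

lemma QM_per {J : Type} (α β : J → ℤ) (z y : ℕ) (r : ℤ) (m M : ℕ) (p n : ℕ) :
    QM α β z y r m M p n ↔ QM α β z y r m M p (n % p) := by
  unfold QM
  refine and_congr_right fun _ => and_congr_right fun _ => exists_congr fun j => ?_
  have h : (n : ℤ) = ((n % p : ℕ) : ℤ) + (p : ℤ) * ((n / p : ℕ) : ℤ) := by
    exact_mod_cast (Nat.mod_add_div n p).symm
  have e : α j * (r + (m : ℤ) * ((n : ℤ) - 1)) + β j =
      (α j * (r + (m : ℤ) * (((n % p : ℕ) : ℤ) - 1)) + β j) + (p : ℤ) * (α j * m * ((n / p : ℕ) : ℤ)) := by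
    linear_combination (α j * (m : ℤ)) * h
  rw [e]
  exact (Int.dvd_add_left (Dvd.intro _ rfl))

open Classical in
lemma count_le {J : Type} [Fintype J] [DecidableEq J] (α β : J → ℤ) (z y X m M r : ℕ)
    (_hm : 0 < m) :
    ((Icc 1 X).filter (fun t : ℕ => t ≡ r [MOD m] ∧ ∀ p ∈ PS z y, ¬ p ∣ M →
      ∀ j, ¬ (p : ℤ) ∣ ff α β t j)).card ≤
      ((Icc 1 (X / m + 1)).filter
        (fun n : ℕ => ∀ p ∈ Pool.Agent.H373R2.T7.pz y,
          ¬ QM α β z y ((r % m : ℕ) : ℤ) m M p n)).card := by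
  apply card_le_card_of_injOn (fun t => t / m + 1)
  · intro t ht
    have ht' := Finset.mem_coe.1 ht
    have htX := mem_Icc.1 (mem_filter.1 ht').1
    obtain ⟨hmod, hnd⟩ := (mem_filter.1 ht').2
    rw [Finset.mem_coe, mem_filter, mem_Icc]
    refine ⟨⟨Nat.le_add_left 1 _, Nat.succ_le_succ (Nat.div_le_div_right htX.2)⟩, fun p _ hQ => ?_⟩
    obtain ⟨hpPS, hpm, j, hj⟩ := hQ
    have e : ((r % m : ℕ) : ℤ) + (m : ℤ) * (((t / m + 1 : ℕ) : ℤ) - 1) = (t : ℤ) := by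
      have h1 : t % m = r % m := hmod
      rw [← h1]
      have := Nat.mod_add_div t m
      push_cast
      zify at this
      linarith
    rw [e] at hj
    exact hnd p hpPS hpm j hj
  · intro a ha b hb hab
    have ha' : a % m = r % m := (mem_filter.1 (Finset.mem_coe.1 ha)).2.1
    have hb' : b % m = r % m := (mem_filter.1 (Finset.mem_coe.1 hb)).2.1
    simp only at hab
    have h1 : a / m = b / m := by omega
    rw [← Nat.mod_add_div a m, ← Nat.mod_add_div b m, ha', hb', h1]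

set_option maxHeartbeats 1000000 in
/-- SVR: upper bound sieve in a residue class. -/
theorem svr2 : Pool.Agent.W307.RT.SVR2 := by
  classical
  intro J _ _ z hz
  obtain ⟨c, hc⟩ : ∃ c, c = Fintype.card J := ⟨_, rfl⟩
  rw [← hc] at hz
  obtain ⟨K', x0', hK', hF⟩ := Pool.Agent.H373R2.T7.sys_fund (c + 1) (by omega) 1 one_pos
  obtain ⟨C1, hC1, hP⟩ := Pool.Agent.W21.RK.prod_le c z (by omega)
  refine ⟨4 * C1 + 1, 2 * (K' + c), max x0' 3, by positivity, by omega,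
    fun X y hy hzy hyX α β m M r hm1 hmM hM0 hmX4 hBg => ?_⟩
  rw [← hc]
  have hy0 : x0' ≤ y := (le_max_left _ _).trans hy
  have hy3 : 3 ≤ y := (le_max_right _ _).trans hy
  have hpα : ∀ p ∈ PS z y, ¬ p ∣ M → ∀ j, ¬ (p : ℤ) ∣ α j := fun p hp hpM => (hBg p hp hpM).1
  have hpd : ∀ p ∈ PS z y, ¬ p ∣ M → ∀ j l, j ≠ l → ¬ (p : ℤ) ∣ α j * β l - α l * β j :=
    fun p hp hpM => (hBg p hp hpM).2
  have hmpos : 0 < m := hm1
  have hm0 : m ≠ 0 := hmpos.ne'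
  have hr := count_le α β z y X m M r hmpos
  have hnu : ∀ p ∈ PS z y, ¬ p ∣ M →
      Pool.Agent.H373R2.T7.nuB (QM α β z y ((r % m : ℕ) : ℤ) m M) p = c := by
    intro p hp hpm
    rw [hc]
    apply nu_eq α β p (Pool.Agent.W21.RK.mem_PS.1 hp).2 ((r % m : ℕ) : ℤ) (m : ℤ)
      (fun h => hpm ((Int.natCast_dvd_natCast.1 h).trans hmM)) (hpα p hp hpm) (hpd p hp hpm)
    intro n
    unfold QM
    exact ⟨fun h => h.2.2, fun h => ⟨hp, hpm, h⟩⟩
  have hnu0 : ∀ p, ¬ (p ∈ PS z y ∧ ¬ p ∣ M) →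
      Pool.Agent.H373R2.T7.nuB (QM α β z y ((r % m : ℕ) : ℤ) m M) p = 0 := by
    intro p hp
    unfold Pool.Agent.H373R2.T7.nuB
    rw [card_eq_zero, filter_eq_empty_iff]
    intro n _ hn
    exact hp ⟨hn.1, hn.2.1⟩
  have hPer : Pool.Agent.H373R2.T7.PerB (QM α β z y ((r % m : ℕ) : ℤ) m M) (c + 1) := by
    refine ⟨fun p n => QM_per α β z y _ m M p n, fun p _ => ?_⟩
    by_cases h : p ∈ PS z y ∧ ¬ p ∣ M
    · rw [hnu p h.1 h.2]
      exact Nat.le_succ c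
    · rw [hnu0 p h]
      exact Nat.zero_le _
  have hfund := hF (y ^ K') y hy0 le_rfl (QM α β z y ((r % m : ℕ) : ℤ) m M) hPer (X / m + 1)
  have hprod : ∏ p ∈ Pool.Agent.H373R2.T7.pz y,
      (1 - ((Pool.Agent.H373R2.T7.nuB (QM α β z y ((r % m : ℕ) : ℤ) m M) p : ℕ) : ℝ) / p) =
      ∏ p ∈ (PS z y).filter (fun p => ¬ p ∣ M), (1 - (c : ℝ) / p) := by
    have h1 : ∏ p ∈ (PS z y).filter (fun p => ¬ p ∣ M),
        (1 - ((Pool.Agent.H373R2.T7.nuB (QM α β z y ((r % m : ℕ) : ℤ) m M) p : ℕ) : ℝ) / p) =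
        ∏ p ∈ Pool.Agent.H373R2.T7.pz y,
      (1 - ((Pool.Agent.H373R2.T7.nuB (QM α β z y ((r % m : ℕ) : ℤ) m M) p : ℕ) : ℝ) / p) := by
      apply prod_subset
      · intro p hp
        rw [mem_filter, Pool.Agent.W21.RK.mem_PS] at hp
        exact Pool.Agent.H373R2.T7.mem_pz.2 ⟨hp.1.1.2, hp.1.2⟩
      · intro p _ hp
        rw [mem_filter] at hp
        rw [hnu0 p hp]
        simp
    rw [← h1]
    refine prod_congr rfl fun p hp => ?_
    rw [mem_filter] at hp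
    rw [hnu p hp.1 hp.2]
  rw [hprod] at hfund
  obtain ⟨A, hA⟩ : ∃ A : ℝ, A = ∏ p ∈ (PS z y).filter (fun p => ¬ p ∣ M), (1 - (c : ℝ) / p) :=
    ⟨_, rfl⟩
  obtain ⟨B, hB⟩ : ∃ B : ℝ, B = ∏ p ∈ M.primeFactors.filter (fun p => p ∈ PS z y),
    (1 - (c : ℝ) / p) := ⟨_, rfl⟩
  obtain ⟨D, hD⟩ : ∃ D : ℝ, D = ∏ p ∈ M.primeFactors.filter (fun p => p ∈ PS z y),
    ((p : ℝ) / ((p : ℝ) - c)) := ⟨_, rfl⟩
  have hzc : ∀ p ∈ PS z y, (c : ℝ) + 1 ≤ p := by
    intro p hp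
    have h1 := (Pool.Agent.W21.RK.mem_PS.1 hp).1.1
    exact_mod_cast (by omega : c + 1 ≤ p)
  have hfpos : ∀ p ∈ PS z y, 0 < 1 - (c : ℝ) / p := by
    intro p hp
    have h1 := hzc p hp
    have hp0 : (0 : ℝ) < p := by exact_mod_cast (Pool.Agent.W21.RK.mem_PS.1 hp).2.pos
    rw [sub_pos, div_lt_one hp0]
    linarith
  have hApos : 0 < A := by
    rw [hA]; exact prod_pos fun p hp => hfpos p (mem_filter.1 hp).1
  have hBpos : 0 < B := by
    rw [hB]; exact prod_pos fun p hp => hfpos p (mem_filter.1 hp).2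
  have hAB : A * B = ∏ p ∈ PS z y, (1 - (c : ℝ) / p) := by
    have h1 : M.primeFactors.filter (fun p => p ∈ PS z y) = (PS z y).filter (fun p => ¬ ¬ p ∣ M) := by
      ext p
      rw [mem_filter, mem_filter, not_not]
      constructor
      · rintro ⟨hp, hp2⟩
        exact ⟨hp2, Nat.dvd_of_mem_primeFactors hp⟩
      · rintro ⟨h2, h3⟩
        exact ⟨Nat.mem_primeFactors.2 ⟨(Pool.Agent.W21.RK.mem_PS.1 h2).2, h3, hM0⟩, h2⟩
    rw [hA, hB, h1]
    exact prod_filter_mul_prod_filter_not _ _ _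
  have hDB : D * B = 1 := by
    rw [hD, hB, ← prod_mul_distrib]
    apply prod_eq_one
    intro p hp
    have h1 := hzc p (mem_filter.1 hp).2
    have hp0 : (0 : ℝ) < p := by
      exact_mod_cast (Pool.Agent.W21.RK.mem_PS.1 (mem_filter.1 hp).2).2.pos
    have h2 : (p : ℝ) - c ≠ 0 := by
      have : 0 < (p : ℝ) - c := by linarith
      exact this.ne'
    field_simp
  have hD1 : 1 ≤ D := by
    rw [hD]
    have h1 : ∀ p ∈ M.primeFactors.filter (fun p => p ∈ PS z y),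
        (1 : ℝ) ≤ (p : ℝ) / ((p : ℝ) - c) := by
      intro p hp
      have h1 := hzc p (mem_filter.1 hp).2
      have h2 : 0 < (p : ℝ) - c := by linarith
      rw [le_div_iff₀ h2]
      have : (0 : ℝ) ≤ c := Nat.cast_nonneg c
      linarith
    calc (1 : ℝ) = ∏ p ∈ M.primeFactors.filter (fun p => p ∈ PS z y), (1 : ℝ) := by
          rw [prod_const_one]
      _ ≤ _ := prod_le_prod (fun _ _ => zero_le_one) h1
  have hDpos : 0 < D := by linarith
  have hAle : A ≤ (C1 / (Real.log y) ^ c) * D := by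
    have h1 : A = (A * B) * D := by
      calc A = A * (D * B) := by rw [hDB, mul_one]
        _ = _ := by ring
    rw [h1, hAB]
    exact mul_le_mul_of_nonneg_right (hP y hy3 hzy) hDpos.le
  have hyr : (3 : ℝ) ≤ y := by exact_mod_cast hy3
  have hl1 : 1 < Real.log y := by
    rw [Real.lt_log_iff_exp_lt (by linarith)]
    have := Real.exp_one_lt_d9
    linarith
  have hly : Real.log y ≤ y := by
    have := Real.log_le_sub_one_of_pos (by linarith : (0 : ℝ) < y)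
    linarith
  have hLpos : 0 < (Real.log y) ^ c := by positivity
  have hmX : m * y ^ (K' + c) ≤ X := by
    have h1 : (m * y ^ (K' + c)) ^ 4 ≤ X ^ 4 := by
      calc (m * y ^ (K' + c)) ^ 4 = m ^ 4 * (y ^ (K' + c)) ^ 4 := by rw [mul_pow]
        _ ≤ m ^ 4 * (y ^ (K' + c)) ^ 6 := by
          apply Nat.mul_le_mul_left
          exact Nat.pow_le_pow_right (pow_pos (by omega) _) (by norm_num)
        _ = m ^ 4 * (y ^ (2 * (K' + c))) ^ 3 := by ring
        _ ≤ X * X ^ 3 := Nat.mul_le_mul hmX4 (Nat.pow_le_pow_left hyX 3)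
        _ = X ^ 4 := by ring
    exact (Nat.pow_le_pow_iff_left (by norm_num)).1 h1
  have hmX' : m ≤ X := by
    refine le_trans ?_ hmX
    exact Nat.le_mul_of_pos_right _ (pow_pos (by omega) _)
  have hmr : (0 : ℝ) < m := by exact_mod_cast hmpos
  have hcnt : (((Icc 1 X).filter (fun t : ℕ => t ≡ r [MOD m] ∧ ∀ p ∈ PS z y, ¬ p ∣ M →
      ∀ j, ¬ (p : ℤ) ∣ ff α β t j)).card : ℝ) ≤
      2 * (((X / m + 1 : ℕ) : ℝ) * A) + √((y ^ K' : ℕ) : ℝ) := by
    have h1 : (((Icc 1 X).filter (fun t : ℕ => t ≡ r [MOD m] ∧ ∀ p ∈ PS z y, ¬ p ∣ M →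
        ∀ j, ¬ (p : ℤ) ∣ ff α β t j)).card : ℝ) ≤
      (((Icc 1 (X / m + 1)).filter
        (fun n : ℕ => ∀ p ∈ Pool.Agent.H373R2.T7.pz y,
          ¬ QM α β z y ((r % m : ℕ) : ℤ) m M p n)).card : ℝ) := by
      exact_mod_cast hr
    have h2 := (abs_le.1 hfund).2
    rw [one_mul, ← hA] at h2
    linarith
  have hX' : ((X / m + 1 : ℕ) : ℝ) ≤ 2 * (X / m) := by
    have h1 : (X / m + 1) * m ≤ 2 * X := by
      have := Nat.div_mul_le_self X m
      rw [add_mul, one_mul]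
      omega
    have h2 : ((X / m + 1 : ℕ) : ℝ) * m ≤ 2 * X := by exact_mod_cast h1
    rw [← mul_div_assoc, le_div_iff₀ hmr]
    exact h2
  have hsq : √((y ^ K' : ℕ) : ℝ) ≤ (X / m) * D / (Real.log y) ^ c := by
    have h1 : (1 : ℝ) ≤ ((y ^ K' : ℕ) : ℝ) := by
      exact_mod_cast Nat.one_le_iff_ne_zero.2 (pow_ne_zero _ (by omega))
    have h2 : √((y ^ K' : ℕ) : ℝ) ≤ ((y ^ K' : ℕ) : ℝ) := by
      rw [Real.sqrt_le_left (by linarith)]
      nlinarith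
    refine h2.trans ?_
    rw [le_div_iff₀ hLpos]
    have h3 : (Real.log y) ^ c ≤ (y : ℝ) ^ c := pow_le_pow_left₀ (by linarith) hly _
    have h4 : (m : ℝ) * (y : ℝ) ^ (K' + c) ≤ X := by exact_mod_cast hmX
    have h5 : (y : ℝ) ^ (K' + c) ≤ X / m := by
      rw [le_div_iff₀ hmr, mul_comm]
      exact h4
    push_cast
    calc (y : ℝ) ^ K' * (Real.log y) ^ c ≤ (y : ℝ) ^ K' * (y : ℝ) ^ c :=
          mul_le_mul_of_nonneg_left h3 (by positivity)
      _ = (y : ℝ) ^ (K' + c) := by rw [pow_add]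
      _ ≤ X / m := h5
      _ = (X / m) * 1 := (mul_one _).symm
      _ ≤ (X / m) * D := mul_le_mul_of_nonneg_left hD1 (by positivity)
  have hmain : 2 * (((X / m + 1 : ℕ) : ℝ) * A) ≤ 4 * C1 * (X / m) * D / (Real.log y) ^ c := by
    calc 2 * (((X / m + 1 : ℕ) : ℝ) * A) ≤
        2 * ((2 * (X / m)) * ((C1 / (Real.log y) ^ c) * D)) := by gcongr
      _ = _ := by ring
  rw [← hD]
  calc (((Icc 1 X).filter (fun t : ℕ => t ≡ r [MOD m] ∧ ∀ p ∈ PS z y, ¬ p ∣ M →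
      ∀ j, ¬ (p : ℤ) ∣ ff α β t j)).card : ℝ)
      ≤ 2 * (((X / m + 1 : ℕ) : ℝ) * A) + √((y ^ K' : ℕ) : ℝ) := hcnt
    _ ≤ 4 * C1 * (X / m) * D / (Real.log y) ^ c + (X / m) * D / (Real.log y) ^ c :=
        add_le_add hmain hsq
    _ = (4 * C1 + 1) * (X / m) * D / (Real.log y) ^ c := by ring

end Pool.Agent.W340.RT.SVR2
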